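import Pool.Agent.helper70.LE.SpecN

set_option autoImplicit false

namespace Pool.Agent.LE

open Pool.Agent.helper58.DC Pool.Agent.DI Pool.Agent.GR Pool.Agent.OB Pool.Agent.DR Pool.Agent.FI Pool.Agent.FI3 Pool.Agent.FI4

section

variable {G : Type} [Group G] [Finite G]

theorem HIB_back (g : G) (ψ : G → ℂ) : cjF g⁻¹ (cjF g ψ) = ψ := by
  funext x
  rw [cjF_apply, cjF_apply]
  congr 1
  group

theorem HIB_back' (g : G) (ψ : G → ℂ) : cjF g (cjF g⁻¹ ψ) = ψ := by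
  funext x
  rw [cjF_apply, cjF_apply]
  congr 1
  group

theorem HIB_inj (g : G) : Function.Injective (fun ψ : G → ℂ => cjF g ψ) := by
  intro a b h
  have h' : cjF g a = cjF g b := h
  have e : ∀ ψ : G → ℂ, cjF g⁻¹ (cjF g ψ) = ψ := by
    intro ψ
    exact HIB_back g ψ
  rw [← e a, h', e b]

theorem HIB_eS (K : Subgroup G) (S : Set (G → ℂ)) (g x : G) :
    eS K S (g * x * g⁻¹) = eS K ((fun ψ : G → ℂ => cjF g⁻¹ ψ) '' S) x := by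
  unfold eS
  congr 1
  rw [finsum_mem_image (HIB_inj g⁻¹).injOn]
  refine finsum_mem_congr rfl ?_
  intro ψ _
  rw [cjF_apply, cjF_apply]
  have h1 : g⁻¹⁻¹ * 1 * g⁻¹ = 1 := by group
  have h2 : g⁻¹⁻¹ * x⁻¹ * g⁻¹ = (g * x * g⁻¹)⁻¹ := by group
  rw [h1, h2]

theorem HIB_disj (hIDM : IDM_stmt) (hEXP : EXP_stmt) (hCVF : CVF_stmt) (hCCI : CCI_stmt) (K : Subgroup G)
    (S S' : Set (G → ℂ)) (hS : S ⊆ IrrOn K) (hS' : S' ⊆ IrrOn K) (hd : ∀ ψ ∈ S, ψ ∉ S') :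
    cv (eS K S) (eS K S') = 0 := by
  obtain ⟨c1, d1, -, -⟩ := hIDM G K S hS
  obtain ⟨c2, d2, -, -⟩ := hIDM G K S' hS'
  refine hEXP G K _ ((hCVF G).2.2.2.2.2.2.2.1 K _ _ c1 c2).1 ?_
  intro ψ hψ
  rw [(hCCI G K ψ hψ).2.1 _ _ c1 c2, d1 ψ hψ, d2 ψ hψ]
  by_cases h : ψ ∈ S
  · rw [if_neg (hd ψ h), mul_zero]
  · rw [if_neg h, zero_mul]

theorem HIB_her (hSTC : STC_stmt) (K : Subgroup G) (S : Set (G → ℂ)) (hS : S ⊆ IrrOn K) (x : G) :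
    eS K S x⁻¹ = (starRingEnd ℂ) (eS K S x) := by
  unfold eS
  have hfin : S.Finite := (IrrOn_fin K).subset hS
  rw [map_div₀, map_natCast]
  congr 1
  have h := (starRingEnd ℂ).toAddMonoidHom.map_finsum_mem (fun ψ : G → ℂ => ψ 1 * ψ x⁻¹) hfin
  change (starRingEnd ℂ) (∑ᶠ ψ ∈ S, ψ 1 * ψ x⁻¹) = ∑ᶠ ψ ∈ S, (starRingEnd ℂ) (ψ 1 * ψ x⁻¹) at h
  rw [h]
  refine finsum_mem_congr rfl ?_
  intro ψ hψ
  rw [map_mul]
  have h1 : (starRingEnd ℂ) (ψ 1) = ψ 1 := by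
    rw [← hSTC G K ψ (hS hψ) 1, inv_one]
  rw [h1, ← hSTC G K ψ (hS hψ) x⁻¹]

end

theorem HIB (hBLE : BLE_stmt) (hIDM : IDM_stmt) (hEXP : EXP_stmt) (hCVF : CVF_stmt) (hCCI : CCI_stmt)
    (hSTC : STC_stmt) (hFEQ : FEQ_stmt) : HIB_stmt := by
  intro p M hM G _ _ K θ
  obtain ⟨-, b2, b3, b4, -, -, -, b8⟩ := hBLE p M hM G K K le_rfl θ
  rw [b8] at b2 b3 b4
  have hsub : Bl M K θ ⊆ IrrOn K := fun ψ h => h.1
  have hback : ∀ (g : G) (ψ : G → ℂ), cjF g⁻¹ (cjF g ψ) = ψ := by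
    intro g ψ
    exact HIB_back g ψ
  have hback' : ∀ (g : G) (ψ : G → ℂ), cjF g (cjF g⁻¹ ψ) = ψ := by
    intro g ψ
    exact HIB_back' g ψ
  have hirr : ∀ g ∈ nz K, ∀ ψ ∈ IrrOn K, cjF g ψ ∈ IrrOn K := by
    intro g hg ψ hψ
    have h := IrrOn_funMap hψ g
    rwa [cj_nz.2 hg] at h
  have hSB : ∀ g ∈ nz K, ∀ η ψ : G → ℂ, SB M K η ψ → SB M K (cjF g η) (cjF g ψ) := by
    intro g hg η ψ h
    have h' := SB_conj h g
    rwa [cj_nz.2 hg] at h'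
  refine ⟨⟨⟨b2.2, b3, b4⟩, b2.1, HIB_her hSTC K _ hsub⟩, ?_, ?_⟩
  · intro g hg hex
    obtain ⟨ψ₀, h0, h1⟩ := hex
    refine ⟨hg, ?_⟩
    intro x
    change eS K (Bl M K θ) (g * x * g⁻¹) = eS K (Bl M K θ) x
    rw [HIB_eS]
    have himg : (fun ψ : G → ℂ => cjF g⁻¹ ψ) '' (Bl M K θ) = Bl M K θ := by
      have A : ∀ φ ∈ Bl M K θ, cjF g φ ∈ Bl M K θ := by
        intro φ hφ
        exact ⟨hirr g hg φ hφ.1, (hSB g hg φ ψ₀ (hφ.2.trans h0.2.symm)).trans h1.2⟩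
      have B : ∀ φ ∈ Bl M K θ, cjF g⁻¹ φ ∈ Bl M K θ := by
        intro φ hφ
        refine ⟨hirr g⁻¹ ((nz K).inv_mem hg) φ hφ.1, ?_⟩
        have h2 := hSB g⁻¹ ((nz K).inv_mem hg) φ (cjF g ψ₀) (hφ.2.trans h1.2.symm)
        rw [hback] at h2
        exact h2.trans h0.2
      ext φ
      constructor
      · rintro ⟨ψ, hψ, rfl⟩
        exact B ψ hψ
      · intro hφ
        exact ⟨cjF g φ, A φ hφ, hback g φ⟩
    rw [himg]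
  · intro g hg hno
    have hsub1 : ∀ h ∈ nz K, (fun ψ : G → ℂ => cjF h ψ) '' (Bl M K θ) ⊆ IrrOn K := by
      rintro h hh _ ⟨ψ, hψ, rfl⟩
      exact hirr h hh ψ hψ.1
    constructor
    · have e : (fun t => eBl M K θ (g⁻¹ * t * g)) = eS K ((fun ψ : G → ℂ => cjF g ψ) '' (Bl M K θ)) := by
        funext t
        have h := HIB_eS K (Bl M K θ) g⁻¹ t
        rw [inv_inv] at h
        exact h
      rw [e]
      refine HIB_disj hIDM hEXP hCVF hCCI K _ _ hsub (hsub1 g hg) ?_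
      rintro φ hφ ⟨ψ, hψ, rfl⟩
      exact hno ⟨ψ, hψ, hφ⟩
    · have e : (fun t => eBl M K θ (g * t * g⁻¹)) = eS K ((fun ψ : G → ℂ => cjF g⁻¹ ψ) '' (Bl M K θ)) := by
        funext t
        exact HIB_eS K (Bl M K θ) g t
      rw [e]
      refine HIB_disj hIDM hEXP hCVF hCCI K _ _ (hsub1 g⁻¹ ((nz K).inv_mem hg)) hsub ?_
      rintro _ ⟨ψ, hψ, rfl⟩ hφ
      exact hno ⟨cjF g⁻¹ ψ, hφ, by rw [hback']; exact hψ⟩

end Pool.Agent.LE
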